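import Mathlib

/-!
Definitions for the problem on the semidegree threshold for oriented trees given a vertex of
high degree. Digraphs are Mathlib's `Digraph` (a relation on the vertex type), so that there is
at most one arc from `x` to `y` for each ordered pair; loops are excluded by `Loopless`.
-/

namespace Pool.Agent.Lib.MP_47458b_co

variable {V W : Type}

/-- The outdegree of `x`. -/
noncomputable def outDeg (D : Digraph V) (x : V) : ℕ := Set.ncard {y | D.Adj x y}

/-- The indegree of `x`. -/
noncomputable def inDeg (D : Digraph V) (x : V) : ℕ := Set.ncard {y | D.Adj y x}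

/-- No loops. -/
def Loopless (D : Digraph V) : Prop := ∀ x, ¬ D.Adj x x

/-- Oriented graph: no loops and no pair of opposite arcs. -/
def IsOrientedGraph (D : Digraph V) : Prop := Loopless D ∧ ∀ x y, D.Adj x y → ¬ D.Adj y x

/-- `T` is an oriented `k`-edge tree: an oriented graph whose underlying undirected graph is a
tree with `k + 1` vertices (hence `k` edges). -/
def IsOrientedTree (k : ℕ) (T : Digraph W) : Prop :=
  IsOrientedGraph T ∧ T.toSimpleGraphInclusive.IsTree ∧ Nat.card W = k + 1

/-- `D` contains a (not necessarily induced) copy of `T`. -/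
def Contains (D : Digraph V) (T : Digraph W) : Prop :=
  ∃ φ : W → V, Function.Injective φ ∧ ∀ a b, T.Adj a b → D.Adj (φ a) (φ b)

/-- The minimum semidegree of `D` is larger than `m`, and some vertex has in- and outdegree at
least `k`. -/
def HostCondition (k : ℕ) (m : ℝ) (D : Digraph V) : Prop :=
  (∀ x, m < outDeg D x ∧ m < inDeg D x) ∧ ∃ v, k ≤ outDeg D v ∧ k ≤ inDeg D v

/-- `f` is admissible for oriented graphs. -/
def AdmissibleForOrientedGraphs (f : ℕ → ℝ) : Prop :=
  ∀ (k : ℕ) (V : Type) [Finite V] (D : Digraph V), IsOrientedGraph D →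
    HostCondition k (f k) D →
      ∀ (W : Type) [Finite W] (T : Digraph W), IsOrientedTree k T → Contains D T

/-- `f` is admissible for digraphs. -/
def AdmissibleForDigraphs (f : ℕ → ℝ) : Prop :=
  ∀ (k : ℕ) (V : Type) [Finite V] (D : Digraph V), Loopless D →
    HostCondition k (f k) D →
      ∀ (W : Type) [Finite W] (T : Digraph W), IsOrientedTree k T → Contains D T

end Pool.Agent.Lib.MP_47458b_co
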