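import Pool.Agent.Lib.MP_47458b_co.Oriented

namespace Pool.Agent.Lib.MP_47458b_co

/-- Vertices of the host digraph: `k` complete digraphs `A`, the vertex `v`, two classes `S`, `R`
of sizes `e` and `e + 1`, and `k + 1` complete digraphs `C`, each with one extra vertex `P`. -/
inductive VD (k e : ℕ) : Type
  | A (i : Fin k) (a : Fin (e + 2))
  | v
  | S (a : Fin e)
  | R (a : Fin (e + 1))
  | P (j : Fin (k + 1))
  | C (j : Fin (k + 1)) (a : Fin (e + 2))
  deriving Fintype, DecidableEq

/-- The host digraph. -/
def hostD (k e : ℕ) : Digraph (VD k e) where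
  Adj
    | .A i a, .A i' a' => i = i' ∧ a ≠ a'
    | .A _ _, .v => True
    | .v, .R _ => True
    | .v, .P j => j ≠ 0
    | .S _, .R _ => True
    | .S _, .P j => j ≠ 0
    | .R _, .S _ => True
    | .R _, .P j => j = 0
    | .P j, .C j' _ => j = j'
    | .C j a, .C j' a' => j = j' ∧ a ≠ a'
    | _, _ => False

variable {k e : ℕ}

theorem hostD_loopless : Loopless (hostD k e) := by
  rintro (⟨i, a⟩ | _ | a | a | j | ⟨j, a⟩) h
  · exact h.2 rfl
  · exact h
  · exact h
  · exact h
  · exact h
  · exact h.2 rfl

theorem hostD_deg (hk : e + 1 ≤ k) :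
    (∀ x, e + 1 ≤ outDeg (hostD k e) x ∧ e + 1 ≤ inDeg (hostD k e) x) ∧
      k ≤ outDeg (hostD k e) .v ∧ k ≤ inDeg (hostD k e) .v := by
  have hv1 : k ≤ outDeg (hostD k e) .v := by
    refine le_outDeg (fun a : Fin k => VD.P a.succ) ?_ (fun a => Fin.succ_ne_zero a)
    intro a b h
    have h' : a.succ = b.succ := by injection h
    exact Fin.succ_injective _ h'
  have hv2 : k ≤ inDeg (hostD k e) .v := by
    refine le_inDeg (fun a : Fin k => VD.A a 0) ?_ (fun a => trivial)
    intro a b h
    injection h
  refine ⟨?_, hv1, hv2⟩
  have vS : Function.Injective (fun b : Fin (e + 1) => Fin.lastCases (motive := fun _ => VD k e)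
      VD.v (fun c => VD.S c) b) := by
    intro a b h
    induction a using Fin.lastCases with
    | last => induction b using Fin.lastCases with
      | last => rfl
      | cast b => simp at h
    | cast a => induction b using Fin.lastCases with
      | last => simp at h
      | cast b =>
        have : a = b := by simpa using h
        rw [this]
  have pS : Function.Injective (fun b : Fin (e + 1) => Fin.lastCases (motive := fun _ => VD k e)
      (VD.P 0) (fun c => VD.S c) b) := by
    intro a b h
    induction a using Fin.lastCases with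
    | last => induction b using Fin.lastCases with
      | last => rfl
      | cast b => simp at h
    | cast a => induction b using Fin.lastCases with
      | last => simp at h
      | cast b =>
        have : a = b := by simpa using h
        rw [this]
  rintro (⟨i, a⟩ | _ | a | a | j | ⟨j, a⟩)
  · constructor
    · refine le_outDeg (fun b : Fin (e + 1) => VD.A i (a.succAbove b)) ?_
        (fun b => ⟨rfl, (Fin.succAbove_ne a b).symm⟩)
      intro b c h
      have h' : a.succAbove b = a.succAbove c := by injection h
      exact Fin.succAbove_right_injective h'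
    · refine le_inDeg (fun b : Fin (e + 1) => VD.A i (a.succAbove b)) ?_
        (fun b => ⟨rfl, Fin.succAbove_ne a b⟩)
      intro b c h
      have h' : a.succAbove b = a.succAbove c := by injection h
      exact Fin.succAbove_right_injective h'
  · exact ⟨hk.trans hv1, hk.trans hv2⟩
  · constructor
    · exact le_outDeg (fun b => VD.R b) (fun b c h => by injection h) (fun _ => trivial)
    · exact le_inDeg (fun b => VD.R b) (fun b c h => by injection h) (fun _ => trivial)
  · constructor
    · refine le_outDeg _ pS (fun b => ?_)
      induction b using Fin.lastCases with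
      | last => simp only [Fin.lastCases_last]; exact rfl
      | cast b => simp only [Fin.lastCases_castSucc]; trivial
    · refine le_inDeg _ vS (fun b => ?_)
      induction b using Fin.lastCases with
      | last => simp only [Fin.lastCases_last]; trivial
      | cast b => simp only [Fin.lastCases_castSucc]; trivial
  · constructor
    · refine le_outDeg (fun b : Fin (e + 1) => VD.C j b.castSucc) ?_ (fun _ => rfl)
      intro b c h
      have h' : b.castSucc = c.castSucc := by injection h
      exact Fin.castSucc_injective _ h'
    · by_cases hj : j = 0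
      · exact le_inDeg (fun b => VD.R b) (fun b c h => by injection h) (fun _ => hj)
      · refine le_inDeg _ vS (fun b => ?_)
        induction b using Fin.lastCases with
        | last => simp only [Fin.lastCases_last]; exact hj
        | cast b => simp only [Fin.lastCases_castSucc]; exact hj
  · constructor
    · refine le_outDeg (fun b : Fin (e + 1) => VD.C j (a.succAbove b)) ?_
        (fun b => ⟨rfl, (Fin.succAbove_ne a b).symm⟩)
      intro b c h
      have h' : a.succAbove b = a.succAbove c := by injection h
      exact Fin.succAbove_right_injective h'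
    · refine le_inDeg (fun b : Fin (e + 1) => VD.C j (a.succAbove b)) ?_
        (fun b => ⟨rfl, Fin.succAbove_ne a b⟩)
      intro b c h
      have h' : a.succAbove b = a.succAbove c := by injection h
      exact Fin.succAbove_right_injective h'

theorem count_image {U V : Type} {φ : U → V} (hφ : Function.Injective φ) (J : Finset U) {n : ℕ}
    (g : Fin n → V) (hJ : ∀ x ∈ J, φ x ∈ Set.range g) : J.card ≤ n := by
  classical
  have h3 : J.image φ ⊆ Finset.univ.image g := by
    intro x hx
    obtain ⟨y, hy, rfl⟩ := Finset.mem_image.1 hx
    obtain ⟨a, ha⟩ := hJ y hy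
    rw [← ha]
    exact Finset.mem_image_of_mem _ (Finset.mem_univ _)
  have h4 := Finset.card_le_card h3
  rw [Finset.card_image_of_injective _ hφ] at h4
  have h5 : (Finset.univ.image g).card ≤ n := by
    refine Finset.card_image_le.trans ?_
    simp
  omega

/-- The tree with `r` sinks and `L` leaves, in blocks of size `q`, is not contained in the host
digraph when `e + 1 ≤ L` and `e + 3 + q ≤ r + L`. -/
theorem hostD_free {r L q : ℕ} (h : L ≤ r * q) (hq : 0 < q) (h1 : e + 1 ≤ L)
    (h2 : e + 3 + q ≤ r + L) :
    ¬ Contains (hostD k e) (starTree (blocks r L q h)) := by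
  classical
  rintro ⟨φ, hφ, hom⟩
  set π := blocks r L q h with hπ
  have hroot : ∀ i, (hostD k e).Adj (φ none) (φ (some (Sum.inl i))) := fun i =>
    hom _ _ (starTree_root i)
  have hleaf : ∀ j, (hostD k e).Adj (φ (some (Sum.inr j))) (φ (some (Sum.inl (π j)))) := fun j =>
    hom _ _ (starTree_leaf j)
  have hcardL : (Finset.univ : Finset (Fin L)).card = L := by simp
  have hcardT : (Finset.univ : Finset (Option (Fin r ⊕ Fin L))).card = r + L + 1 := by
    simp
  -- case of a root in `P j` or `C j`
  have caseC : ∀ j0 : Fin (k + 1),
      (∀ i, ∃ c, φ (some (Sum.inl i)) = VD.C j0 c) →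
      φ none ∈ Set.range (fun b : Fin (e + 3) => Fin.lastCases (motive := fun _ => VD k e)
        (VD.P j0) (fun c => VD.C j0 c) b) → False := by
    intro j0 hs h0
    have hl : ∀ x, φ x ∈ Set.range (fun b : Fin (e + 3) =>
        Fin.lastCases (motive := fun _ => VD k e) (VD.P j0) (fun c => VD.C j0 c) b) := by
      rintro (_ | i | j)
      · exact h0
      · obtain ⟨c, hc⟩ := hs i
        rw [hc]
        exact ⟨c.castSucc, by simp⟩
      · have h3 := hleaf j
        obtain ⟨c, hc⟩ := hs (π j)
        rw [hc] at h3
        rcases hy : φ (some (Sum.inr j)) with ⟨i', a'⟩ | _ | a' | a' | j' | ⟨j', a'⟩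
        all_goals rw [hy] at h3
        all_goals first | exact h3.elim | skip
        · have h4 : j' = j0 := h3
          exact ⟨Fin.last _, by simp [h4]⟩
        · have h4 : j' = j0 := h3.1
          exact ⟨a'.castSucc, by simp [h4]⟩
    have := count_image hφ Finset.univ _ (fun x _ => hl x)
    omega
  -- case of a root in `v` or `S`
  have caseS : (∀ j, φ (some (Sum.inr j)) ∈ Set.range (fun b : Fin (e + 1) =>
        Fin.lastCases (motive := fun _ => VD k e) VD.v (fun c => VD.S c) b)) →
      φ none ∈ Set.range (fun b : Fin (e + 1) =>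
        Fin.lastCases (motive := fun _ => VD k e) VD.v (fun c => VD.S c) b) → False := by
    intro hl h0
    have := count_leaves hφ Finset.univ _ h0 (fun j _ => hl j)
    omega
  rcases hx : φ none with ⟨i, a⟩ | _ | a | a | j0 | ⟨j0, a⟩
  · -- root in `A i`
    by_cases hv : ∃ i0, φ (some (Sum.inl i0)) = VD.v
    · obtain ⟨i0, hi0⟩ := hv
      have hs : ∀ j, j ≠ i0 → ∃ c, φ (some (Sum.inl j)) = VD.A i c := by
        intro j hj
        have h3 := hroot j
        rw [hx] at h3
        rcases hy : φ (some (Sum.inl j)) with ⟨i', a'⟩ | _ | a' | a' | j' | ⟨j', a'⟩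
        all_goals rw [hy] at h3
        all_goals first | exact h3.elim | skip
        · have h4 : i = i' := h3.1
          exact ⟨a', by rw [h4]⟩
        · have h5 := hφ (hy.trans hi0.symm)
          exact absurd (by simpa using h5) hj
      -- the set of vertices that are forced into `A i`
      set U : Finset (Option (Fin r ⊕ Fin L)) :=
        insert none (((Finset.univ.erase i0).image fun i => some (Sum.inl i)) ∪
          ((Finset.univ.filter fun j => π j ≠ i0).image fun j => some (Sum.inr j))) with hU
      have hUc : U.card = 1 + (r - 1) + (Finset.univ.filter fun j => π j ≠ i0).card := by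
        rw [hU, Finset.card_insert_of_notMem (by simp), Finset.card_union_of_disjoint,
          Finset.card_image_of_injective _ (fun a b h => by simpa using h),
          Finset.card_image_of_injective _ (fun a b h => by simpa using h),
          Finset.card_erase_of_mem (Finset.mem_univ _), Finset.card_univ, Fintype.card_fin]
        · ring
        · rw [Finset.disjoint_left]
          intro x hx1 hx2
          obtain ⟨y, -, rfl⟩ := Finset.mem_image.1 hx1
          obtain ⟨z, -, hz⟩ := Finset.mem_image.1 hx2
          simp at hz
      have hmem : ∀ x ∈ U, φ x ∈ Set.range (fun b : Fin (e + 2) => VD.A (k := k) i b) := by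
        intro x hxU
        rw [hU, Finset.mem_insert, Finset.mem_union] at hxU
        rcases hxU with rfl | hxU | hxU
        · exact ⟨a, hx.symm⟩
        · obtain ⟨y, hy, rfl⟩ := Finset.mem_image.1 hxU
          obtain ⟨c, hc⟩ := hs y (Finset.ne_of_mem_erase hy)
          exact ⟨c, hc.symm⟩
        · obtain ⟨j, hj, rfl⟩ := Finset.mem_image.1 hxU
          rw [Finset.mem_filter] at hj
          have h3 := hleaf j
          obtain ⟨c, hc⟩ := hs (π j) hj.2
          rw [hc] at h3
          rcases hy : φ (some (Sum.inr j)) with ⟨i', a'⟩ | _ | a' | a' | j' | ⟨j', a'⟩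
          all_goals rw [hy] at h3
          all_goals first | exact h3.elim | skip
          have h4 : i' = i := h3.1
          exact ⟨a', by rw [h4]⟩
      have h6 := count_image hφ U _ hmem
      have h7 := blocks_other h hq i0
      rw [← hπ] at h7
      have hr : 0 < r := i0.pos
      omega
    · have hs : ∀ j, ∃ c, φ (some (Sum.inl j)) = VD.A i c := by
        intro j
        have h3 := hroot j
        rw [hx] at h3
        rcases hy : φ (some (Sum.inl j)) with ⟨i', a'⟩ | _ | a' | a' | j' | ⟨j', a'⟩
        all_goals rw [hy] at h3
        all_goals first | exact h3.elim | skip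
        · have h4 : i = i' := h3.1
          exact ⟨a', by rw [h4]⟩
        · exact absurd ⟨j, hy⟩ hv
      have hmem : ∀ x, φ x ∈ Set.range (fun b : Fin (e + 2) => VD.A (k := k) i b) := by
        rintro (_ | j | j)
        · exact ⟨a, hx.symm⟩
        · obtain ⟨c, hc⟩ := hs j
          exact ⟨c, hc.symm⟩
        · have h3 := hleaf j
          obtain ⟨c, hc⟩ := hs (π j)
          rw [hc] at h3
          rcases hy : φ (some (Sum.inr j)) with ⟨i', a'⟩ | _ | a' | a' | j' | ⟨j', a'⟩
          all_goals rw [hy] at h3
          all_goals first | exact h3.elim | skip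
          have h4 : i' = i := h3.1
          exact ⟨a', by rw [h4]⟩
      have := count_image hφ Finset.univ _ (fun x _ => hmem x)
      omega
  · -- root is `v`
    refine caseS (fun j => ?_) (by rw [hx]; exact ⟨Fin.last _, by simp⟩)
    have h3 := hleaf j
    have h4 := hroot (π j)
    rw [hx] at h4
    rcases hy : φ (some (Sum.inl (π j))) with ⟨i', a'⟩ | _ | a' | a' | j' | ⟨j', a'⟩
    all_goals rw [hy] at h4 h3
    all_goals first | exact h4.elim | skip
    · rcases hz : φ (some (Sum.inr j)) with ⟨i'', a''⟩ | _ | a'' | a'' | j'' | ⟨j'', a''⟩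
      all_goals rw [hz] at h3
      all_goals first | exact h3.elim | skip
      · exact ⟨Fin.last _, by simp⟩
      · exact ⟨a''.castSucc, by simp⟩
    · rcases hz : φ (some (Sum.inr j)) with ⟨i'', a''⟩ | _ | a'' | a'' | j'' | ⟨j'', a''⟩
      all_goals rw [hz] at h3
      all_goals first | exact h3.elim | skip
      · exact ⟨Fin.last _, by simp⟩
      · exact ⟨a''.castSucc, by simp⟩
      · exact absurd h3 h4
  · -- root in `S`
    refine caseS (fun j => ?_) (by rw [hx]; exact ⟨a.castSucc, by simp⟩)
    have h3 := hleaf j
    have h4 := hroot (π j)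
    rw [hx] at h4
    rcases hy : φ (some (Sum.inl (π j))) with ⟨i', a'⟩ | _ | a' | a' | j' | ⟨j', a'⟩
    all_goals rw [hy] at h4 h3
    all_goals first | exact h4.elim | skip
    · rcases hz : φ (some (Sum.inr j)) with ⟨i'', a''⟩ | _ | a'' | a'' | j'' | ⟨j'', a''⟩
      all_goals rw [hz] at h3
      all_goals first | exact h3.elim | skip
      · exact ⟨Fin.last _, by simp⟩
      · exact ⟨a''.castSucc, by simp⟩
    · rcases hz : φ (some (Sum.inr j)) with ⟨i'', a''⟩ | _ | a'' | a'' | j'' | ⟨j'', a''⟩
      all_goals rw [hz] at h3
      all_goals first | exact h3.elim | skip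
      · exact ⟨Fin.last _, by simp⟩
      · exact ⟨a''.castSucc, by simp⟩
      · exact absurd h3 h4
  · -- root in `R`
    have hl : ∀ j, φ (some (Sum.inr j)) ∈ Set.range (fun b : Fin (e + 1) => VD.R (k := k) b) := by
      intro j
      have h3 := hleaf j
      have h4 := hroot (π j)
      rw [hx] at h4
      rcases hy : φ (some (Sum.inl (π j))) with ⟨i', a'⟩ | _ | a' | a' | j' | ⟨j', a'⟩
      all_goals rw [hy] at h4 h3
      all_goals first | exact h4.elim | skip
      · rcases hz : φ (some (Sum.inr j)) with ⟨i'', a''⟩ | _ | a'' | a'' | j'' | ⟨j'', a''⟩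
        all_goals rw [hz] at h3
        all_goals first | exact h3.elim | skip
        exact ⟨a'', rfl⟩
      · rcases hz : φ (some (Sum.inr j)) with ⟨i'', a''⟩ | _ | a'' | a'' | j'' | ⟨j'', a''⟩
        all_goals rw [hz] at h3
        all_goals first | exact h3.elim | skip
        · exact absurd h4 h3
        · exact absurd h4 h3
        · exact ⟨a'', rfl⟩
    have := count_leaves hφ Finset.univ _ (by rw [hx]; exact ⟨a, rfl⟩) (fun j _ => hl j)
    omega
  · -- root is `P j0`
    refine caseC j0 (fun i => ?_) (by rw [hx]; exact ⟨Fin.last _, by simp⟩)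
    have h3 := hroot i
    rw [hx] at h3
    rcases hy : φ (some (Sum.inl i)) with ⟨i', a'⟩ | _ | a' | a' | j' | ⟨j', a'⟩
    all_goals rw [hy] at h3
    all_goals first | exact h3.elim | skip
    have h4 : j0 = j' := h3
    exact ⟨a', by rw [h4]⟩
  · -- root in `C j0`
    refine caseC j0 (fun i => ?_) (by rw [hx]; exact ⟨a.castSucc, by simp⟩)
    have h3 := hroot i
    rw [hx] at h3
    rcases hy : φ (some (Sum.inl i)) with ⟨i', a'⟩ | _ | a' | a' | j' | ⟨j', a'⟩
    all_goals rw [hy] at h3
    all_goals first | exact h3.elim | skip
    have h4 : j0 = j' := h3.1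
    exact ⟨a', by rw [h4]⟩

end Pool.Agent.Lib.MP_47458b_co
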