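import Pool.Agent.Lib.MP_47458b_co.LogTree

/-!
The binary heap is not contained in the host digraph `hostL`.
-/

namespace Pool.Agent.Lib.MP_47458b_co

variable {κ m l : ℕ}

/-- The vertex is a word. -/
def IsO (x : VL κ m l) : Prop := ∃ w, x = VL.O w

/-- The vertex lies in `U`. -/
def IsU (x : VL κ m l) : Prop := ∃ b, x = VL.U b

/-- The vertex lies in `J`. -/
def IsJ (x : VL κ m l) : Prop := ∃ a, x = VL.J a

/-- Length of a word (`0` for other vertices). -/
def len : VL κ m l → ℕ
  | .O w => w.1.length
  | _ => 0

theorem trich (x : VL κ m l) : IsO x ∨ IsU x ∨ IsJ x := by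
  rcases x with a | b | w
  · exact Or.inr (Or.inr ⟨a, rfl⟩)
  · exact Or.inr (Or.inl ⟨b, rfl⟩)
  · exact Or.inl ⟨w, rfl⟩

theorem adj_O {x y : VL κ m l} (h : (hostL κ m l).Adj x y) (hy : IsO y) : IsO x := by
  obtain ⟨w, rfl⟩ := hy
  rcases x with a | b | w'
  · exact h.elim
  · exact h.elim
  · exact ⟨w', rfl⟩

theorem len_O {x : VL κ m l} (hx : IsO x) : 1 ≤ len x ∧ len x ≤ l := by
  obtain ⟨w, rfl⟩ := hx
  exact w.2

theorem adj_len {x y : VL κ m l} (h : (hostL κ m l).Adj x y) (hy : IsO y) :
    (2 ≤ len x ∧ len y + 1 = len x) ∨ (len x = 1 ∧ len y = l) := by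
  obtain ⟨w', rfl⟩ := adj_O h hy
  obtain ⟨w, rfl⟩ := hy
  rcases h with ⟨h1, h2⟩ | ⟨h1, h2⟩
  · refine Or.inl ⟨h1, ?_⟩
    have := congrArg List.length h2
    rw [List.length_tail] at this
    show w.1.length + 1 = w'.1.length
    omega
  · exact Or.inr ⟨h1, h2⟩

theorem adj_U {x y : VL κ m l} (h : (hostL κ m l).Adj x y) (hy : IsU y) :
    x = VL.J 0 ∨ (IsO x ∧ len x = 1) := by
  obtain ⟨b, rfl⟩ := hy
  rcases x with a | b' | w'
  · left
    have h' : a = 0 := h
    rw [h']
  · exact h.elim
  · exact Or.inr ⟨⟨w', rfl⟩, h⟩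

/-- A word of length at least two has only one out-neighbour outside `J`. -/
theorem adj_unique {x y y' : VL κ m l} (hx : IsO x) (h2 : 2 ≤ len x)
    (h : (hostL κ m l).Adj x y) (h' : (hostL κ m l).Adj x y') (hy : ¬ IsJ y) (hy' : ¬ IsJ y') :
    y = y' := by
  obtain ⟨w, rfl⟩ := hx
  have h2' : 2 ≤ w.1.length := h2
  have key : ∀ z : VL κ m l, (hostL κ m l).Adj (VL.O w) z → ¬ IsJ z →
      ∃ u : Word κ l, z = VL.O u ∧ u.1 = w.1.tail := by
    rintro (a | b | u) hz hJ
    · exact absurd ⟨a, rfl⟩ hJ
    · have : w.1.length = 1 := hz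
      omega
    · rcases hz with hz | hz
      · exact ⟨u, rfl, hz.2⟩
      · omega
  obtain ⟨u, rfl, hu⟩ := key y h hy
  obtain ⟨u', rfl, hu'⟩ := key y' h' hy'
  have : u = u' := Subtype.ext (hu.trans hu'.symm)
  rw [this]

theorem log_half {a : ℕ} (ha : 2 ≤ a) : Nat.log 2 (a / 2) + 1 = Nat.log 2 a := by
  have h1 := Nat.log_div_base 2 a
  have h2 : 1 ≤ Nat.log 2 a := Nat.log_pos (by norm_num) ha
  omega

theorem core_bound {H N : ℕ} (hl : l = H + 1) (hN : N = κ + m + 1) (ψ : ℕ → VL κ m l)
    (hinj : ∀ a b, 1 ≤ a → a ≤ N → 1 ≤ b → b ≤ N → ψ a = ψ b → a = b)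
    (hadj : ∀ a, 2 ≤ a → a ≤ N → (hostL κ m l).Adj (ψ (a / 2)) (ψ a))
    (hH : ∀ a, a ≤ N → Nat.log 2 a ≤ H) : m ≤ 2 * H + 3 := by
  classical
  -- the three classes
  set T : Finset ℕ := Finset.Icc 1 N with hT
  have memT : ∀ a, a ∈ T ↔ 1 ≤ a ∧ a ≤ N := fun a => by rw [hT, Finset.mem_Icc]
  set TJ := T.filter (fun a => IsJ (ψ a)) with hTJ
  set X := T.filter (fun a => IsO (ψ a) ∨ (IsU (ψ a) ∧ 2 ≤ a ∧ IsO (ψ (a / 2)))) with hX
  set Y := T.filter (fun a => IsU (ψ a) ∧ 2 ≤ a ∧ ψ (a / 2) = VL.J 0) with hY
  have hTc : T.card = N := by rw [hT, Nat.card_Icc]; omega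
  -- size of `TJ`
  have h1 : TJ.card ≤ κ + 1 := by
    have h2 : (TJ.image ψ).card = TJ.card := by
      refine Finset.card_image_of_injOn ?_
      intro a ha b hb hab
      have ha' := (memT a).1 (Finset.mem_filter.1 ha).1
      have hb' := (memT b).1 (Finset.mem_filter.1 hb).1
      exact hinj a b ha'.1 ha'.2 hb'.1 hb'.2 hab
    have h3 : TJ.image ψ ⊆ (Finset.univ : Finset (Fin (κ + 1))).image VL.J := by
      intro x hx
      obtain ⟨a, ha, rfl⟩ := Finset.mem_image.1 hx
      obtain ⟨j, hj⟩ := (Finset.mem_filter.1 ha).2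
      rw [hj]
      exact Finset.mem_image_of_mem _ (Finset.mem_univ _)
    have h4 := Finset.card_le_card h3
    have h5 : ((Finset.univ : Finset (Fin (κ + 1))).image (VL.J : Fin (κ + 1) → VL κ m l)).card ≤
        κ + 1 := Finset.card_image_le.trans (by simp)
    omega
  -- size of `Y`
  have h2 : Y.card ≤ 2 := by
    by_cases hc : ∃ c, 1 ≤ c ∧ c ≤ N ∧ ψ c = VL.J 0
    · obtain ⟨c, hc1, hc2, hc3⟩ := hc
      have : Y ⊆ {2 * c, 2 * c + 1} := by
        intro a ha
        obtain ⟨ha1, ha2, ha3, ha4⟩ := Finset.mem_filter.1 ha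
        have ha' := (memT a).1 ha1
        have := hinj (a / 2) c (by omega) (by omega) hc1 hc2 (ha4.trans hc3.symm)
        rw [Finset.mem_insert, Finset.mem_singleton]
        omega
      exact (Finset.card_le_card this).trans (Finset.card_le_two)
    · have : Y = ∅ := by
        rw [Finset.eq_empty_iff_forall_notMem]
        intro a ha
        obtain ⟨ha1, ha2, ha3, ha4⟩ := Finset.mem_filter.1 ha
        have ha' := (memT a).1 ha1
        exact hc ⟨a / 2, by omega, by omega, ha4⟩
      rw [this]
      simp
  -- if the root is not a word then nothing is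
  by_cases hroot : IsO (ψ 1)
  swap
  · have hno : ∀ a, 1 ≤ a → a ≤ N → ¬ IsO (ψ a) := by
      intro a
      induction a using Nat.strong_induction_on with
      | _ a ih =>
        intro ha1 ha2 hO
        by_cases ha : a = 1
        · rw [ha] at hO
          exact hroot hO
        · exact ih (a / 2) (by omega) (by omega) (by omega)
            (adj_O (hadj a (by omega) ha2) hO)
    have hcov : T ⊆ TJ ∪ (Y ∪ {1}) := by
      intro a ha
      have ha' := (memT a).1 ha
      rw [Finset.mem_union, Finset.mem_union, Finset.mem_singleton]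
      rcases trich (ψ a) with h | h | h
      · exact absurd h (hno a ha'.1 ha'.2)
      · right
        by_cases ha1 : a = 1
        · exact Or.inr ha1
        · left
          rw [hY, Finset.mem_filter]
          refine ⟨ha, h, by omega, ?_⟩
          rcases adj_U (hadj a (by omega) ha'.2) h with h5 | h5
          · exact h5
          · exact absurd h5.1 (hno _ (by omega) (by omega))
      · left
        rw [hTJ, Finset.mem_filter]
        exact ⟨ha, h⟩
    have h6 := Finset.card_le_card hcov
    have h7 := Finset.card_union_le TJ (Y ∪ {1})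
    have h8 := Finset.card_union_le Y {1}
    rw [Finset.card_singleton] at h8
    omega
  -- lengths
  set n := len (ψ 1) with hn
  have hn1 : 1 ≤ n := (len_O hroot).1
  have hlen : ∀ a, 1 ≤ a → a ≤ N → IsO (ψ a) →
      (Nat.log 2 a < n ∧ len (ψ a) + Nat.log 2 a = n) ∨
      (n ≤ Nat.log 2 a ∧ len (ψ a) + Nat.log 2 a = l + n) := by
    intro a
    induction a using Nat.strong_induction_on with
    | _ a ih =>
      intro ha1 ha2 hO
      by_cases ha : a = 1
      · left
        rw [ha]
        simp only [Nat.log_one_right]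
        omega
      · have hadj' := hadj a (by omega) ha2
        have hO' := adj_O hadj' hO
        have hlog := log_half (show 2 ≤ a by omega)
        have hHa := hH a ha2
        rcases ih (a / 2) (by omega) (by omega) (by omega) hO' with h5 | h5
        · rcases adj_len hadj' hO with h6 | h6
          · left
            have := (len_O hO).1
            omega
          · right
            omega
        · right
          rcases adj_len hadj' hO with h6 | h6
          · omega
          · omega
  -- the second coordinate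
  set b : ℕ → ℕ := fun a => if Nat.log 2 a < n then 0 else (a / 2 ^ (Nat.log 2 a - n)) % 2 with hb
  have hb1 : ∀ a, b a ≤ 1 := by
    intro a
    rw [hb]
    dsimp only
    split_ifs
    · omega
    · omega
  have hbpar : ∀ a, 2 ≤ a → n < Nat.log 2 a → b (a / 2) = b a := by
    intro a ha hna
    have hlog := log_half ha
    rw [hb]
    dsimp only
    rw [if_neg (by omega), if_neg (by omega), Nat.div_div_eq_div_mul, ← hlog,
      show Nat.log 2 (a / 2) + 1 - n = (Nat.log 2 (a / 2) - n) + 1 by omega, pow_succ, mul_comm 2]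
  have hXinj : ∀ d a a', Nat.log 2 a = d → Nat.log 2 a' = d → a ∈ X → a' ∈ X → b a = b a' →
      a = a' := by
    intro d
    induction d with
    | zero =>
      intro a a' ha ha' haX haX' _
      have h5 := (memT a).1 (Finset.mem_filter.1 haX).1
      have h6 := (memT a').1 (Finset.mem_filter.1 haX').1
      rw [Nat.log_eq_zero_iff] at ha ha'
      omega
    | succ d ih =>
      intro a a' ha ha' haX haX' hbb
      have h5 := (memT a).1 (Finset.mem_filter.1 haX).1
      have h6 := (memT a').1 (Finset.mem_filter.1 haX').1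
      have ha2 : 2 ≤ a := by
        by_contra hc
        have : a = 1 := by omega
        rw [this, Nat.log_one_right] at ha
        omega
      have ha2' : 2 ≤ a' := by
        by_contra hc
        have : a' = 1 := by omega
        rw [this, Nat.log_one_right] at ha'
        omega
      have hlog := log_half ha2
      have hlog' := log_half ha2'
      have hadja := hadj a ha2 h5.2
      have hadja' := hadj a' ha2' h6.2
      -- parents are words
      have hp : IsO (ψ (a / 2)) := by
        rcases (Finset.mem_filter.1 haX).2 with h | h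
        · exact adj_O hadja h
        · exact h.2.2
      have hp' : IsO (ψ (a' / 2)) := by
        rcases (Finset.mem_filter.1 haX').2 with h | h
        · exact adj_O hadja' h
        · exact h.2.2
      have hpX : a / 2 ∈ X := by
        rw [hX, Finset.mem_filter]
        exact ⟨(memT _).2 (by omega), Or.inl hp⟩
      have hpX' : a' / 2 ∈ X := by
        rw [hX, Finset.mem_filter]
        exact ⟨(memT _).2 (by omega), Or.inl hp'⟩
      have hbp : b (a / 2) = b (a' / 2) := by
        by_cases hdn : n ≤ d
        · rw [hbpar a ha2 (by omega), hbpar a' ha2' (by omega), hbb]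
        · rw [hb]
          dsimp only
          rw [if_pos (by omega), if_pos (by omega)]
      have hpp : a / 2 = a' / 2 := ih _ _ (by omega) (by omega) hpX hpX' hbp
      by_cases hdn : d + 1 = n
      · have e1 : b a = a % 2 := by
          rw [hb]
          dsimp only
          rw [if_neg (by omega), show Nat.log 2 a - n = 0 by omega, pow_zero, Nat.div_one]
        have e2 : b a' = a' % 2 := by
          rw [hb]
          dsimp only
          rw [if_neg (by omega), show Nat.log 2 a' - n = 0 by omega, pow_zero, Nat.div_one]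
        omega
      · have hHa := hH a h5.2
        have hlen2 : 2 ≤ len (ψ (a / 2)) := by
          rcases hlen (a / 2) (by omega) (by omega) hp with h7 | h7
          · omega
          · omega
        have hnJ : ¬ IsJ (ψ a) := by
          rintro ⟨j, hj⟩
          rcases (Finset.mem_filter.1 haX).2 with ⟨w, hw⟩ | ⟨⟨w, hw⟩, -⟩
          · rw [hj] at hw; simp at hw
          · rw [hj] at hw; simp at hw
        have hnJ' : ¬ IsJ (ψ a') := by
          rintro ⟨j, hj⟩
          rcases (Finset.mem_filter.1 haX').2 with ⟨w, hw⟩ | ⟨⟨w, hw⟩, -⟩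
          · rw [hj] at hw; simp at hw
          · rw [hj] at hw; simp at hw
        refine hinj a a' h5.1 h5.2 h6.1 h6.2 ?_
        rw [← hpp] at hadja'
        exact adj_unique hp hlen2 hadja hadja' hnJ hnJ'
  have hXc : X.card ≤ 2 * H + 1 := by
    have h5 : (X.image (fun a => 2 * Nat.log 2 a - b a)).card = X.card := by
      refine Finset.card_image_of_injOn ?_
      intro a ha a' ha' haa
      have h5 := (memT a).1 (Finset.mem_filter.1 ha).1
      have h6 := (memT a').1 (Finset.mem_filter.1 ha').1
      have h7 := hb1 a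
      have h8 := hb1 a'
      have h9 : Nat.log 2 a = 0 → b a = 0 := by
        intro h
        rw [hb]
        dsimp only
        rw [if_pos (by omega)]
      have h10 : Nat.log 2 a' = 0 → b a' = 0 := by
        intro h
        rw [hb]
        dsimp only
        rw [if_pos (by omega)]
      have haa' : 2 * Nat.log 2 a - b a = 2 * Nat.log 2 a' - b a' := haa
      have h11 : Nat.log 2 a = Nat.log 2 a' := by
        by_cases h12 : Nat.log 2 a = 0
        · have := h9 h12
          by_cases h13 : Nat.log 2 a' = 0
          · omega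
          · omega
        · by_cases h13 : Nat.log 2 a' = 0
          · have := h10 h13
            omega
          · omega
      exact hXinj _ a a' rfl h11.symm ha ha' (by
        by_cases h12 : Nat.log 2 a = 0
        · rw [h9 h12, h10 (by omega)]
        · omega)
    have h6 : X.image (fun a => 2 * Nat.log 2 a - b a) ⊆ Finset.range (2 * H + 1) := by
      intro x hx
      obtain ⟨a, ha, rfl⟩ := Finset.mem_image.1 hx
      have h5 := (memT a).1 (Finset.mem_filter.1 ha).1
      have := hH a h5.2
      rw [Finset.mem_range]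
      omega
    have h7 := Finset.card_le_card h6
    rw [Finset.card_range] at h7
    omega
  have hcov : T ⊆ TJ ∪ (X ∪ Y) := by
    intro a ha
    have ha' := (memT a).1 ha
    rw [Finset.mem_union, Finset.mem_union]
    rcases trich (ψ a) with h | h | h
    · right; left
      rw [hX, Finset.mem_filter]
      exact ⟨ha, Or.inl h⟩
    · right
      by_cases ha1 : a = 1
      · exfalso
        obtain ⟨w, hw⟩ := hroot
        obtain ⟨u, hu⟩ := h
        rw [ha1, hw] at hu
        simp at hu
      · rcases adj_U (hadj a (by omega) ha'.2) h with h5 | h5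
        · right
          rw [hY, Finset.mem_filter]
          exact ⟨ha, h, by omega, h5⟩
        · left
          rw [hX, Finset.mem_filter]
          exact ⟨ha, Or.inr ⟨h, by omega, h5.1⟩⟩
    · left
      rw [hTJ, Finset.mem_filter]
      exact ⟨ha, h⟩
  have h6 := Finset.card_le_card hcov
  have h7 := Finset.card_union_le TJ (X ∪ Y)
  have h8 := Finset.card_union_le X Y
  omega

/-- The binary heap with `κ + m` edges is not contained in the host digraph if
`m ≥ 2 H + 4`, where `H` is its height. -/
theorem hostL_free {H : ℕ} (hH : H = Nat.log 2 (κ + m + 1)) (hm : 2 * H + 4 ≤ m) :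
    ¬ Contains (hostL κ m (H + 1)) (heapTree (κ + m)) := by
  rintro ⟨φ, hφ, hom⟩
  have hk : ∀ a : ℕ, a - 1 < κ + m + 1 ∨ κ + m + 1 ≤ a - 1 := fun a => by omega
  let ψ : ℕ → VL κ m (H + 1) := fun a =>
    if h : a - 1 < κ + m + 1 then φ ⟨a - 1, h⟩ else VL.J 0
  have hψ : ∀ a (h : a - 1 < κ + m + 1), ψ a = φ ⟨a - 1, h⟩ := fun a h => dif_pos h
  have := core_bound (κ := κ) (m := m) (l := H + 1) (H := H) (N := κ + m + 1) rfl rfl ψ
    (fun a b ha1 ha2 hb1 hb2 hab => by
      rw [hψ a (by omega), hψ b (by omega)] at hab
      have := congrArg Fin.val (hφ hab)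
      simp only at this
      omega)
    (fun a ha1 ha2 => by
      rw [hψ a (by omega), hψ (a / 2) (by omega)]
      refine hom _ _ ⟨?_, ?_⟩
      · show 0 < a - 1
        omega
      · show a / 2 - 1 = (a - 1 - 1) / 2
        omega)
    (fun a ha => by
      rw [hH]
      exact Nat.log_mono_right ha)
  omega

end Pool.Agent.Lib.MP_47458b_co
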