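import Pool.Agent.Lib.MP_47458b_co.Tree

/-!
The host digraph for the logarithmic lower bound: a complete digraph `J` on `κ + 1` vertices with
the special vertex `J 0`, a class `U` of `m` vertices, and the class `O` of all words over `Fin κ`
of length between `1` and `l`.
-/

namespace Pool.Agent.Lib.MP_47458b_co

/-- Words over `Fin κ` of length between `1` and `l`. -/
def Word (κ l : ℕ) : Type := {w : List (Fin κ) // 1 ≤ w.length ∧ w.length ≤ l}

instance (κ l : ℕ) : Finite (Word κ l) := by
  have h : {w : List (Fin κ) | w.length ≤ l}.Finite := List.finite_length_le (Fin κ) l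
  exact (h.subset (fun w (hw : 1 ≤ w.length ∧ w.length ≤ l) => hw.2)).to_subtype

/-- Vertices of the host digraph. -/
inductive VL (κ m l : ℕ) : Type
  | J (a : Fin (κ + 1))
  | U (b : Fin m)
  | O (w : Word κ l)

variable {κ m l : ℕ}

/-- The vertices as a sum type (for finiteness). -/
def VL.toSum : VL κ m l → Fin (κ + 1) ⊕ (Fin m ⊕ Word κ l)
  | .J a => Sum.inl a
  | .U b => Sum.inr (Sum.inl b)
  | .O w => Sum.inr (Sum.inr w)

instance : Finite (VL κ m l) := by
  refine Finite.of_injective VL.toSum ?_
  rintro (a | a | a) (b | b | b) h <;> simp [VL.toSum] at h <;> rw [h]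

theorem O_val {w w' : Word κ l} (h : (VL.O w : VL κ m l) = VL.O w') : w.1 = w'.1 := by
  have h2 : w = w' := by injection h
  rw [h2]

/-- The host digraph. -/
def hostL (κ m l : ℕ) : Digraph (VL κ m l) where
  Adj
    | .J a, .J b => a ≠ b
    | .J a, .U _ => a = 0
    | .U _, .J _ => True
    | .O _, .J _ => True
    | .O w, .U _ => w.1.length = 1
    | .O w, .O w' => (2 ≤ w.1.length ∧ w'.1 = w.1.tail) ∨ (w.1.length = 1 ∧ w'.1.length = l)
    | _, _ => False

theorem hostL_loopless (hl : 2 ≤ l) : Loopless (hostL κ m l) := by
  rintro (a | b | w) h
  · exact h rfl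
  · exact h
  · rcases h with ⟨h1, h2⟩ | ⟨h1, h2⟩
    · have := congrArg List.length h2
      rw [List.length_tail] at this
      omega
    · omega

theorem hostL_deg (hl : 2 ≤ l) :
    (∀ x, κ ≤ outDeg (hostL κ m l) x ∧ κ ≤ inDeg (hostL κ m l) x) ∧
      κ + m ≤ outDeg (hostL κ m l) (.J 0) ∧ κ + m ≤ inDeg (hostL κ m l) (.J 0) := by
  -- vertices outside `J` send arcs to all of `J`
  have hJinj : Function.Injective (fun a : Fin κ => (VL.J a.succ : VL κ m l)) := by
    intro a b h
    have h' : a.succ = b.succ := by injection h
    exact Fin.succ_injective _ h'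
  have hgsinj : ∀ g : Fin m → VL κ m l, Function.Injective g → (∀ a b, g a ≠ VL.J b) →
      Function.Injective (fun b : Fin (κ + m) => Fin.addCases (motive := fun _ => VL κ m l)
        (fun a => VL.J a.succ) g b) := by
    intro g hg hgJ a b h
    induction a using Fin.addCases with
    | left a => induction b using Fin.addCases with
      | left b =>
        simp only [Fin.addCases_left] at h
        rw [hJinj h]
      | right b =>
        simp only [Fin.addCases_left, Fin.addCases_right] at h
        exact absurd h.symm (hgJ b _)
    | right a => induction b using Fin.addCases with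
      | left b =>
        simp only [Fin.addCases_left, Fin.addCases_right] at h
        exact absurd h (hgJ a _)
      | right b =>
        simp only [Fin.addCases_right] at h
        rw [hg h]
  have hUinj : Function.Injective (fun b : Fin m => (VL.U b : VL κ m l)) := by
    intro a b h
    injection h
  have hv1 : κ + m ≤ outDeg (hostL κ m l) (.J 0) := by
    refine le_outDeg _ (hgsinj (fun b => VL.U b) hUinj (fun a b h => by simp at h)) (fun a => ?_)
    induction a using Fin.addCases with
    | left a => simp only [Fin.addCases_left]; exact (Fin.succ_ne_zero a).symm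
    | right a => simp only [Fin.addCases_right]; exact rfl
  have hv2 : κ + m ≤ inDeg (hostL κ m l) (.J 0) := by
    refine le_inDeg _ (hgsinj (fun b => VL.U b) hUinj (fun a b h => by simp at h)) (fun a => ?_)
    induction a using Fin.addCases with
    | left a => simp only [Fin.addCases_left]; exact (Fin.succ_ne_zero a)
    | right a => simp only [Fin.addCases_right]; trivial
  refine ⟨?_, hv1, hv2⟩
  -- the words of length one
  have h1inj : Function.Injective
      (fun a : Fin κ => (VL.O ⟨[a], ⟨le_rfl, by simp; omega⟩⟩ : VL κ m l)) := by
    intro a b h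
    have h2 := O_val h
    simpa using h2
  rintro (a | b | w)
  · constructor
    · refine le_outDeg (fun b : Fin κ => VL.J (a.succAbove b)) ?_
        (fun b => (Fin.succAbove_ne a b).symm)
      intro b c h
      have h' : a.succAbove b = a.succAbove c := by injection h
      exact Fin.succAbove_right_injective h'
    · refine le_inDeg (fun b : Fin κ => VL.J (a.succAbove b)) ?_
        (fun b => Fin.succAbove_ne a b)
      intro b c h
      have h' : a.succAbove b = a.succAbove c := by injection h
      exact Fin.succAbove_right_injective h'
  · constructor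
    · exact le_outDeg _ hJinj (fun _ => trivial)
    · refine le_inDeg _ h1inj (fun a => ?_)
      exact (rfl : ([a] : List (Fin κ)).length = 1)
  · constructor
    · exact le_outDeg _ hJinj (fun _ => trivial)
    · by_cases hw : w.1.length = l
      · refine le_inDeg _ h1inj (fun a => ?_)
        exact Or.inr ⟨rfl, hw⟩
      · have hw1 := w.2.1
        have hw2 := w.2.2
        refine le_inDeg (fun a : Fin κ => (VL.O ⟨a :: w.1, by simp, by simp; omega⟩)) ?_
          (fun a => Or.inl ⟨by simp; omega, by simp⟩)
        intro a b h
        have h2 := O_val h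
        simpa using h2

end Pool.Agent.Lib.MP_47458b_co
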