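import Pool.Agent.Lib.MP_47458b_co.LogHost

/-!
The out-arborescence given by the binary heap, and the proof that it is not contained in the
host digraph `hostL`.
-/

namespace Pool.Agent.Lib.MP_47458b_co

/-- The binary heap on `k + 1` vertices, all arcs directed away from the root `0`. -/
def heapTree (k : ℕ) : Digraph (Fin (k + 1)) where
  Adj i j := 0 < j.1 ∧ i.1 = (j.1 - 1) / 2

variable {k : ℕ}

theorem heapTree_lt {i j : Fin (k + 1)} (h : (heapTree k).Adj i j) : i.1 < j.1 := by
  have h1 := h.1
  have h2 := h.2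
  omega

theorem heapTree_oriented : IsOrientedGraph (heapTree k) := by
  refine ⟨fun x h => absurd (heapTree_lt h) (lt_irrefl _), fun x y h h' => ?_⟩
  exact absurd (heapTree_lt h) (not_lt.2 (heapTree_lt h').le)

/-- The parent of a non-root vertex. -/
def heapPar (i : Fin k) : Fin (k + 1) := ⟨i.1 / 2, by omega⟩

theorem heapPar_adj (i : Fin k) : (heapTree k).Adj (heapPar i) i.succ := by
  refine ⟨by simp, ?_⟩
  simp [heapPar]

theorem heapTree_adj_iff {x y : Fin (k + 1)} :
    (heapTree k).Adj x y ↔ ∃ i : Fin k, x = heapPar i ∧ y = i.succ := by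
  constructor
  · intro h
    have h1 := h.1
    have h2 := h.2
    refine ⟨⟨y.1 - 1, by omega⟩, ?_, ?_⟩
    · apply Fin.ext
      simpa [heapPar] using h2
    · apply Fin.ext
      simp
      omega
  · rintro ⟨i, rfl, rfl⟩
    exact heapPar_adj i

/-- The edge above a non-root vertex. -/
def heapEdge (i : Fin k) : Sym2 (Fin (k + 1)) := s(heapPar i, i.succ)

theorem heapTree_edgeSet :
    (heapTree k).toSimpleGraphInclusive.edgeSet = Set.range (heapEdge (k := k)) := by
  ext e
  induction e using Sym2.ind with
  | _ x y =>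
    rw [SimpleGraph.mem_edgeSet]
    simp only [Digraph.toSimpleGraphInclusive, SimpleGraph.fromRel_adj]
    constructor
    · rintro ⟨hne, h | h⟩
      · obtain ⟨i, rfl, rfl⟩ := heapTree_adj_iff.1 h
        exact ⟨i, rfl⟩
      · obtain ⟨i, rfl, rfl⟩ := heapTree_adj_iff.1 h
        exact ⟨i, Sym2.eq_swap⟩
    · rintro ⟨i, h⟩
      have hlt := heapTree_lt (heapPar_adj i)
      simp only [heapEdge, Sym2.eq_iff] at h
      rcases h with ⟨rfl, rfl⟩ | ⟨rfl, rfl⟩
      · exact ⟨fun h => absurd hlt (by rw [h]; exact lt_irrefl _), Or.inl (heapPar_adj i)⟩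
      · exact ⟨fun h => absurd hlt (by rw [h]; exact lt_irrefl _), Or.inr (heapPar_adj i)⟩

theorem heapEdge_injective : Function.Injective (heapEdge (k := k)) := by
  intro i j h
  have hi := heapTree_lt (heapPar_adj i)
  have hj := heapTree_lt (heapPar_adj j)
  simp only [heapEdge, Sym2.eq_iff] at h
  rcases h with ⟨_, h⟩ | ⟨h1, h2⟩
  · exact Fin.succ_injective _ h
  · rw [h1] at hi
    rw [← h2] at hj
    omega

theorem heapTree_isOrientedTree : IsOrientedTree k (heapTree k) := by
  refine ⟨heapTree_oriented, ?_, by simp⟩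
  rw [SimpleGraph.isTree_iff_connected_and_card]
  constructor
  · have hreach : ∀ n : ℕ, ∀ x : Fin (k + 1), x.1 = n →
        (heapTree k).toSimpleGraphInclusive.Reachable 0 x := by
      intro n
      induction n using Nat.strong_induction_on with
      | _ n ih =>
        intro x hx
        by_cases h0 : x.1 = 0
        · have : x = 0 := Fin.ext h0
          rw [this]
        · have hadj : (heapTree k).Adj ⟨(x.1 - 1) / 2, by omega⟩ x := ⟨by omega, rfl⟩
          have hlt := heapTree_lt hadj
          have h1 := ih ((x.1 - 1) / 2) (by omega) ⟨(x.1 - 1) / 2, by omega⟩ rfl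
          refine h1.trans (SimpleGraph.Adj.reachable ?_)
          simp only [Digraph.toSimpleGraphInclusive, SimpleGraph.fromRel_adj]
          exact ⟨fun h => absurd hlt (by rw [h]; exact lt_irrefl _), Or.inl hadj⟩
    exact ⟨fun x y => (hreach _ x rfl).symm.trans (hreach _ y rfl)⟩
  · rw [heapTree_edgeSet, Nat.card_range_of_injective heapEdge_injective]
    simp

end Pool.Agent.Lib.MP_47458b_co
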