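import Pool.Agent.Lib.MP_47458b_co.Tree

namespace Pool.Agent.Lib.MP_47458b_co

/-- Vertices of the oriented host graph: `k + 1` copies of three classes `X, Y, Z` of size `M`,
one extra vertex `E` for each copy, and the vertex `v`. -/
inductive VO (k M : ℕ) : Type
  | X (i : Fin (k + 1)) (a : Fin M)
  | Y (i : Fin (k + 1)) (a : Fin M)
  | Z (i : Fin (k + 1)) (a : Fin M)
  | E (i : Fin (k + 1))
  | v
  deriving Fintype, DecidableEq

/-- The oriented host graph. -/
def hostO (k M : ℕ) : Digraph (VO k M) where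
  Adj
    | .X i _, .Y i' _ => i = i'
    | .Y i _, .Z i' _ => i = i'
    | .Z i _, .X i' _ => i = i'
    | .E i, .X i' _ => i = i'
    | .Y i _, .E _ => i = 0
    | .Y i _, .v => i ≠ 0
    | .v, .Z i _ => i = 0
    | .v, .E _ => True
    | _, _ => False

variable {k M : ℕ}

theorem hostO_oriented : IsOrientedGraph (hostO k M) := by
  constructor
  · rintro (_ | _ | _ | _ | _) <;> exact id
  · rintro (⟨i, a⟩ | ⟨i, a⟩ | ⟨i, a⟩ | ⟨i⟩ | _) (⟨i', a'⟩ | ⟨i', a'⟩ | ⟨i', a'⟩ | ⟨i'⟩ | _) h h'
    all_goals first | exact h | exact h'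

/-- All semidegrees are at least `M`, and `v` has semidegree at least `k`. -/
theorem hostO_deg (hM : 1 ≤ M) (hMk : M ≤ k) :
    (∀ x, M ≤ outDeg (hostO k M) x ∧ M ≤ inDeg (hostO k M) x) ∧
      k ≤ outDeg (hostO k M) .v ∧ k ≤ inDeg (hostO k M) .v := by
  have hv1 : k ≤ outDeg (hostO k M) .v := by
    refine le_outDeg (fun a : Fin k => VO.E a.castSucc) ?_ (fun a => trivial)
    intro a b h
    have h' : a.castSucc = b.castSucc := by simpa using h
    exact Fin.castSucc_injective _ h'
  have hv2 : k ≤ inDeg (hostO k M) .v := by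
    refine le_inDeg (fun a : Fin k => VO.Y a.succ ⟨0, hM⟩) ?_ (fun a => Fin.succ_ne_zero a)
    intro a b h
    have h' : a.succ = b.succ := by
      injection h
    exact Fin.succ_injective _ h'
  refine ⟨?_, hv1, hv2⟩
  have iX : ∀ i : Fin (k + 1), Function.Injective (fun a : Fin M => VO.X (k := k) i a) :=
    fun i a b h => by injection h
  have iY : ∀ i : Fin (k + 1), Function.Injective (fun a : Fin M => VO.Y (k := k) i a) :=
    fun i a b h => by injection h
  have iZ : ∀ i : Fin (k + 1), Function.Injective (fun a : Fin M => VO.Z (k := k) i a) :=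
    fun i a b h => by injection h
  rintro (⟨i, a⟩ | ⟨i, a⟩ | ⟨i, a⟩ | ⟨i⟩ | _)
  · exact ⟨le_outDeg _ (iY i) (fun _ => rfl), le_inDeg _ (iZ i) (fun _ => rfl)⟩
  · exact ⟨le_outDeg _ (iZ i) (fun _ => rfl), le_inDeg _ (iX i) (fun _ => rfl)⟩
  · exact ⟨le_outDeg _ (iX i) (fun _ => rfl), le_inDeg _ (iY i) (fun _ => rfl)⟩
  · exact ⟨le_outDeg _ (iX i) (fun _ => rfl), le_inDeg _ (iY 0) (fun _ => rfl)⟩
  · exact ⟨hMk.trans hv1, hMk.trans hv2⟩

/-- Counting: the root and the leaves of a set of sinks are mapped injectively into `S`. -/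
theorem count_leaves {V : Type} {r L : ℕ} {φ : Option (Fin r ⊕ Fin L) → V}
    (hφ : Function.Injective φ) (J : Finset (Fin L)) {n : ℕ} (g : Fin n → V)
    (h0 : φ none ∈ Set.range g) (hJ : ∀ j ∈ J, φ (some (Sum.inr j)) ∈ Set.range g) :
    J.card + 1 ≤ n := by
  classical
  have h1 : (insert none (J.image fun j => some (Sum.inr j)) :
      Finset (Option (Fin r ⊕ Fin L))).card = J.card + 1 := by
    rw [Finset.card_insert_of_notMem (by simp), Finset.card_image_of_injective]
    intro a b h
    simpa using h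
  have h2 : ((insert none (J.image fun j => some (Sum.inr j)) :
      Finset (Option (Fin r ⊕ Fin L))).image φ).card = J.card + 1 := by
    rw [Finset.card_image_of_injective _ hφ, h1]
  have h3 : ((insert none (J.image fun j => some (Sum.inr j)) :
      Finset (Option (Fin r ⊕ Fin L))).image φ) ⊆ Finset.univ.image g := by
    intro x hx
    simp only [Finset.mem_image, Finset.mem_insert] at hx
    obtain ⟨y, (rfl | ⟨j, hj, rfl⟩), rfl⟩ := hx
    · obtain ⟨a, ha⟩ := h0
      rw [← ha]
      exact Finset.mem_image_of_mem _ (Finset.mem_univ _)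
    · obtain ⟨a, ha⟩ := hJ j hj
      rw [← ha]
      exact Finset.mem_image_of_mem _ (Finset.mem_univ _)
  have h4 := Finset.card_le_card h3
  have h5 : (Finset.univ.image g).card ≤ n := by
    refine Finset.card_image_le.trans ?_
    simp
  omega

/-- The tree with `r` sinks and `L` leaves, in blocks of size `q`, is not contained in the host
graph as soon as `M + 1 ≤ L` and `M + q ≤ L`. -/
theorem hostO_free {r L q : ℕ} (h : L ≤ r * q) (hq : 0 < q) (h1 : M + 1 ≤ L)
    (h2 : M + q ≤ L) :
    ¬ Contains (hostO k M) (starTree (blocks r L q h)) := by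
  rintro ⟨φ, hφ, hom⟩
  set π := blocks r L q h with hπ
  have hroot : ∀ i, (hostO k M).Adj (φ none) (φ (some (Sum.inl i))) := fun i =>
    hom _ _ (starTree_root i)
  have hleaf : ∀ j, (hostO k M).Adj (φ (some (Sum.inr j))) (φ (some (Sum.inl (π j)))) := fun j =>
    hom _ _ (starTree_leaf j)
  have hcardL : (Finset.univ : Finset (Fin L)).card = L := by simp
  rcases hx : φ none with ⟨i, a⟩ | ⟨i, a⟩ | ⟨i, a⟩ | ⟨i⟩ | _
  · -- root in `X i`
    have hs : ∀ j, ∃ c, φ (some (Sum.inl j)) = VO.Y i c := by
      intro j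
      have h3 := hroot j
      rw [hx] at h3
      rcases hy : φ (some (Sum.inl j)) with ⟨i', a'⟩ | ⟨i', a'⟩ | ⟨i', a'⟩ | ⟨i'⟩ | _
      all_goals rw [hy] at h3
      all_goals first | exact h3.elim | skip
      have h4 : i = i' := h3
      exact ⟨a', by rw [h4]⟩
    have hl : ∀ j, φ (some (Sum.inr j)) ∈ Set.range (VO.X (k := k) (M := M) i) := by
      intro j
      have h3 := hleaf j
      obtain ⟨c, hc⟩ := hs (π j)
      rw [hc] at h3
      rcases hy : φ (some (Sum.inr j)) with ⟨i', a'⟩ | ⟨i', a'⟩ | ⟨i', a'⟩ | ⟨i'⟩ | _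
      all_goals rw [hy] at h3
      all_goals first | exact h3.elim | skip
      have h4 : i' = i := h3
      exact ⟨a', by rw [h4]⟩
    have := count_leaves hφ Finset.univ (VO.X (k := k) (M := M) i) (by rw [hx]; exact ⟨a, rfl⟩)
      (fun j _ => hl j)
    omega
  · by_cases hi : i = 0
    · -- root in `Y 0`
      subst hi
      have hl : ∀ j, φ (some (Sum.inr j)) ∈
          Set.range (fun b : Fin (M + 1) => Fin.lastCases (motive := fun _ => VO k M) VO.v
            (fun c => VO.Y 0 c) b) := by
        intro j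
        have h3 := hleaf j
        have h4 := hroot (π j)
        rw [hx] at h4
        rcases hy : φ (some (Sum.inl (π j))) with ⟨i', a'⟩ | ⟨i', a'⟩ | ⟨i', a'⟩ | ⟨i'⟩ | _
        all_goals rw [hy] at h4 h3
        all_goals first | exact h4.elim | skip
        · have h5 : (0 : Fin (k + 1)) = i' := h4
          subst h5
          rcases hz : φ (some (Sum.inr j)) with ⟨i'', a''⟩ | ⟨i'', a''⟩ | ⟨i'', a''⟩ | ⟨i''⟩ | _
          all_goals rw [hz] at h3
          all_goals first | exact h3.elim | skip
          · have h6 : i'' = 0 := h3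
            exact ⟨a''.castSucc, by simp [h6]⟩
          · exact ⟨Fin.last M, by simp⟩
        · rcases hz : φ (some (Sum.inr j)) with ⟨i'', a''⟩ | ⟨i'', a''⟩ | ⟨i'', a''⟩ | ⟨i''⟩ | _
          all_goals rw [hz] at h3
          all_goals first | exact h3.elim | skip
          · have h6 : i'' = 0 := h3
            exact ⟨a''.castSucc, by simp [h6]⟩
          · exact ⟨Fin.last M, by simp⟩
        · exact absurd rfl h4
      have := count_leaves hφ Finset.univ _ (by rw [hx]; exact ⟨a.castSucc, by simp⟩)
        (fun j _ => hl j)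
      omega
    · -- root in `Y i`, `i ≠ 0`
      by_cases hv : ∃ i0, φ (some (Sum.inl i0)) = VO.v
      · obtain ⟨i0, hi0⟩ := hv
        have hs : ∀ j, j ≠ i0 → ∃ c, φ (some (Sum.inl j)) = VO.Z i c := by
          intro j hj
          have h3 := hroot j
          rw [hx] at h3
          rcases hy : φ (some (Sum.inl j)) with ⟨i', a'⟩ | ⟨i', a'⟩ | ⟨i', a'⟩ | ⟨i'⟩ | _
          all_goals rw [hy] at h3
          all_goals first | exact h3.elim | skip
          · have h4 : i = i' := h3
            exact ⟨a', by rw [h4]⟩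
          · exact absurd h3 hi
          · have h5 := hφ (hy.trans hi0.symm)
            exact absurd (by simpa using h5) hj
        have hl : ∀ j ∈ Finset.univ.filter (fun j => π j ≠ i0),
            φ (some (Sum.inr j)) ∈ Set.range (VO.Y (k := k) (M := M) i) := by
          intro j hj
          rw [Finset.mem_filter] at hj
          have h3 := hleaf j
          obtain ⟨c, hc⟩ := hs (π j) hj.2
          rw [hc] at h3
          rcases hy : φ (some (Sum.inr j)) with ⟨i', a'⟩ | ⟨i', a'⟩ | ⟨i', a'⟩ | ⟨i'⟩ | _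
          all_goals rw [hy] at h3
          all_goals first | exact h3.elim | skip
          · have h4 : i' = i := h3
            exact ⟨a', by rw [h4]⟩
          · exact absurd h3 hi
        have h6 := count_leaves hφ _ (VO.Y (k := k) (M := M) i) (by rw [hx]; exact ⟨a, rfl⟩) hl
        have h7 := blocks_other h hq i0
        rw [← hπ] at h7
        omega
      · have hs : ∀ j, ∃ c, φ (some (Sum.inl j)) = VO.Z i c := by
          intro j
          have h3 := hroot j
          rw [hx] at h3
          rcases hy : φ (some (Sum.inl j)) with ⟨i', a'⟩ | ⟨i', a'⟩ | ⟨i', a'⟩ | ⟨i'⟩ | _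
          all_goals rw [hy] at h3
          all_goals first | exact h3.elim | skip
          · have h4 : i = i' := h3
            exact ⟨a', by rw [h4]⟩
          · exact absurd h3 hi
          · exact absurd ⟨j, hy⟩ hv
        have hl : ∀ j, φ (some (Sum.inr j)) ∈ Set.range (VO.Y (k := k) (M := M) i) := by
          intro j
          have h3 := hleaf j
          obtain ⟨c, hc⟩ := hs (π j)
          rw [hc] at h3
          rcases hy : φ (some (Sum.inr j)) with ⟨i', a'⟩ | ⟨i', a'⟩ | ⟨i', a'⟩ | ⟨i'⟩ | _
          all_goals rw [hy] at h3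
          all_goals first | exact h3.elim | skip
          · have h4 : i' = i := h3
            exact ⟨a', by rw [h4]⟩
          · exact absurd h3 hi
        have := count_leaves hφ Finset.univ (VO.Y (k := k) (M := M) i)
          (by rw [hx]; exact ⟨a, rfl⟩) (fun j _ => hl j)
        omega
  · -- root in `Z i`
    have hs : ∀ j, ∃ c, φ (some (Sum.inl j)) = VO.X i c := by
      intro j
      have h3 := hroot j
      rw [hx] at h3
      rcases hy : φ (some (Sum.inl j)) with ⟨i', a'⟩ | ⟨i', a'⟩ | ⟨i', a'⟩ | ⟨i'⟩ | _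
      all_goals rw [hy] at h3
      all_goals first | exact h3.elim | skip
      have h4 : i = i' := h3
      exact ⟨a', by rw [h4]⟩
    have hl : ∀ j, φ (some (Sum.inr j)) ∈
        Set.range (fun b : Fin (M + 1) => Fin.lastCases (motive := fun _ => VO k M) (VO.E i)
            (fun c => VO.Z i c) b) := by
      intro j
      have h3 := hleaf j
      obtain ⟨c, hc⟩ := hs (π j)
      rw [hc] at h3
      rcases hy : φ (some (Sum.inr j)) with ⟨i', a'⟩ | ⟨i', a'⟩ | ⟨i', a'⟩ | ⟨i'⟩ | _
      all_goals rw [hy] at h3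
      all_goals first | exact h3.elim | skip
      · have h4 : i' = i := h3
        exact ⟨a'.castSucc, by simp [h4]⟩
      · have h4 : i' = i := h3
        exact ⟨Fin.last M, by simp [h4]⟩
    have := count_leaves hφ Finset.univ _ (by rw [hx]; exact ⟨a.castSucc, by simp⟩)
      (fun j _ => hl j)
    omega
  · -- root is `E i`
    have hs : ∀ j, ∃ c, φ (some (Sum.inl j)) = VO.X i c := by
      intro j
      have h3 := hroot j
      rw [hx] at h3
      rcases hy : φ (some (Sum.inl j)) with ⟨i', a'⟩ | ⟨i', a'⟩ | ⟨i', a'⟩ | ⟨i'⟩ | _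
      all_goals rw [hy] at h3
      all_goals first | exact h3.elim | skip
      have h4 : i = i' := h3
      exact ⟨a', by rw [h4]⟩
    have hl : ∀ j, φ (some (Sum.inr j)) ∈
        Set.range (fun b : Fin (M + 1) => Fin.lastCases (motive := fun _ => VO k M) (VO.E i)
            (fun c => VO.Z i c) b) := by
      intro j
      have h3 := hleaf j
      obtain ⟨c, hc⟩ := hs (π j)
      rw [hc] at h3
      rcases hy : φ (some (Sum.inr j)) with ⟨i', a'⟩ | ⟨i', a'⟩ | ⟨i', a'⟩ | ⟨i'⟩ | _
      all_goals rw [hy] at h3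
      all_goals first | exact h3.elim | skip
      · have h4 : i' = i := h3
        exact ⟨a'.castSucc, by simp [h4]⟩
      · have h4 : i' = i := h3
        exact ⟨Fin.last M, by simp [h4]⟩
    have := count_leaves hφ Finset.univ _ (by rw [hx]; exact ⟨Fin.last M, by simp⟩)
      (fun j _ => hl j)
    omega
  · -- root is `v`
    have hl : ∀ j, φ (some (Sum.inr j)) ∈
        Set.range (fun b : Fin (M + 1) => Fin.lastCases (motive := fun _ => VO k M) VO.v
          (fun c => VO.Y 0 c) b) := by
      intro j
      have h3 := hleaf j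
      have h4 := hroot (π j)
      rw [hx] at h4
      rcases hy : φ (some (Sum.inl (π j))) with ⟨i', a'⟩ | ⟨i', a'⟩ | ⟨i', a'⟩ | ⟨i'⟩ | _
      all_goals rw [hy] at h4 h3
      all_goals first | exact h4.elim | skip
      · have h5 : i' = 0 := h4
        subst h5
        rcases hz : φ (some (Sum.inr j)) with ⟨i'', a''⟩ | ⟨i'', a''⟩ | ⟨i'', a''⟩ | ⟨i''⟩ | _
        all_goals rw [hz] at h3
        all_goals first | exact h3.elim | skip
        · have h6 : i'' = 0 := h3
          exact ⟨a''.castSucc, by simp [h6]⟩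
        · exact ⟨Fin.last M, by simp⟩
      · rcases hz : φ (some (Sum.inr j)) with ⟨i'', a''⟩ | ⟨i'', a''⟩ | ⟨i'', a''⟩ | ⟨i''⟩ | _
        all_goals rw [hz] at h3
        all_goals first | exact h3.elim | skip
        · have h6 : i'' = 0 := h3
          exact ⟨a''.castSucc, by simp [h6]⟩
        · exact ⟨Fin.last M, by simp⟩
    have := count_leaves hφ Finset.univ _ (by rw [hx]; exact ⟨Fin.last M, by simp⟩)
      (fun j _ => hl j)
    omega

end Pool.Agent.Lib.MP_47458b_co
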