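import Pool.Agent.Lib.MP_47458b_co.General

/-!
The square root form of the lower bound for digraphs (used for small `k`).
-/

namespace Pool.Agent.Lib.MP_47458b_co

theorem digraph_sqrt_lower (f : ℕ → ℝ) (hf : AdmissibleForDigraphs f) (k : ℕ) (hk : 4 ≤ k) :
    (k : ℝ) - ⌈(1 + Real.sqrt (4 * k + 1)) / 2⌉ ≤ f k := by
  by_contra hcon
  push Not at hcon
  set t : ℤ := ⌈(1 + Real.sqrt (4 * k + 1)) / 2⌉ with ht
  have hk4 : (4 : ℝ) ≤ k := by exact_mod_cast hk
  have hnn : (0 : ℝ) ≤ 4 * k + 1 := by linarith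
  have hsq : Real.sqrt (4 * k + 1) * Real.sqrt (4 * k + 1) = 4 * k + 1 := Real.mul_self_sqrt hnn
  have hs0 : 0 ≤ Real.sqrt (4 * k + 1) := Real.sqrt_nonneg _
  have hs4 : (4 : ℝ) < Real.sqrt (4 * k + 1) := by
    rw [Real.lt_sqrt (by norm_num)]
    nlinarith
  have ht1 : (1 + Real.sqrt (4 * k + 1)) / 2 ≤ (t : ℝ) := Int.le_ceil _
  have ht2 : t ≤ (k : ℤ) - 1 := by
    rw [ht, Int.ceil_le]
    push_cast
    have h1 : Real.sqrt (4 * k + 1) ≤ 2 * k - 3 := by
      rw [Real.sqrt_le_left (by linarith)]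
      nlinarith
    linarith
  have ht3 : (3 : ℤ) ≤ t := by
    have : (2 : ℝ) < t := by linarith
    have : (2 : ℤ) < t := by exact_mod_cast this
    omega
  have htt : (k : ℤ) ≤ t * (t - 1) := by
    have h1 : Real.sqrt (4 * k + 1) ≤ 2 * t - 1 := by linarith
    have h2 : (4 * k + 1 : ℝ) ≤ (2 * t - 1) * (2 * t - 1) := by nlinarith
    have h3 : (k : ℝ) ≤ t * (t - 1) := by nlinarith
    exact_mod_cast h3
  obtain ⟨s, hs⟩ : ∃ s : ℕ, t = s := ⟨t.toNat, by omega⟩
  rw [hs] at ht2 ht3 htt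
  have hs3 : 3 ≤ s := by exact_mod_cast ht3
  have hsk : s + 1 ≤ k := by omega
  have hkss : k ≤ s * (s - 1) := by
    have : ((k : ℕ) : ℤ) ≤ ((s * (s - 1) : ℕ) : ℤ) := by
      rw [Nat.cast_mul, Nat.cast_sub (by omega)]
      exact_mod_cast htt
    exact_mod_cast this
  have hL : k - s ≤ s * (s - 2) := by
    have : s * (s - 1) = s * (s - 2) + s := by
      obtain ⟨c, rfl⟩ : ∃ c, s = c + 2 := ⟨s - 2, by omega⟩
      simp [Nat.mul_succ]
    omega
  obtain ⟨e, he⟩ : ∃ e, k - s = e + 1 := ⟨k - s - 1, by omega⟩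
  have hdeg := hostD_deg (k := k) (e := e) (by omega)
  have hcast : ((e + 1 : ℕ) : ℝ) = (k : ℝ) - t := by
    rw [← he, Nat.cast_sub (by omega), hs]
    push_cast
    ring
  have hhost : HostCondition k (f k) (hostD k e) := by
    refine ⟨fun x => ?_, VD.v, hdeg.2⟩
    have h1 : ((e + 1 : ℕ) : ℝ) ≤ outDeg (hostD k e) x := by
      exact_mod_cast (hdeg.1 x).1
    have h2 : ((e + 1 : ℕ) : ℝ) ≤ inDeg (hostD k e) x := by
      exact_mod_cast (hdeg.1 x).2
    rw [hcast] at h1 h2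
    exact ⟨by linarith, by linarith⟩
  have htree : IsOrientedTree k (starTree (blocks s (k - s) (s - 2) hL)) := by
    have := starTree_isOrientedTree (π := blocks s (k - s) (s - 2) hL)
    rwa [show s + (k - s) = k by omega] at this
  have hcont := hf k _ (hostD k e) hostD_loopless hhost _ _ htree
  exact hostD_free hL (by omega) (by omega) (by omega) hcont

end Pool.Agent.Lib.MP_47458b_co
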