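import Pool.Agent.Lib.MP_47458b_co.Defs

namespace Pool.Agent.Lib.MP_47458b_co

variable {V W : Type}

/-- The antidirected tree of height two: the root `none` sends an arc to each of the `r` sinks,
and each of the `L` leaves sends an arc to its sink. -/
def starTree {r L : ℕ} (π : Fin L → Fin r) : Digraph (Option (Fin r ⊕ Fin L)) where
  Adj x y := match x, y with
    | none, some (Sum.inl _) => True
    | some (Sum.inr j), some (Sum.inl i) => π j = i
    | _, _ => False

variable {r L : ℕ} {π : Fin L → Fin r}

theorem starTree_root (i : Fin r) : (starTree π).Adj none (some (Sum.inl i)) := trivial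
theorem starTree_leaf (j : Fin L) : (starTree π).Adj (some (Sum.inr j)) (some (Sum.inl (π j))) :=
  rfl

theorem starTree_oriented : IsOrientedGraph (starTree π) := by
  constructor
  · rintro (_ | _ | _) <;> exact id
  · rintro (_ | _ | _) (_ | _ | _) h h' <;> first | exact h | exact h'

/-- The edge above a non-root vertex. -/
def upEdge (π : Fin L → Fin r) : Fin r ⊕ Fin L → Sym2 (Option (Fin r ⊕ Fin L))
  | Sum.inl i => s(none, some (Sum.inl i))
  | Sum.inr j => s(some (Sum.inr j), some (Sum.inl (π j)))

theorem starTree_edgeSet :
    (starTree π).toSimpleGraphInclusive.edgeSet = Set.range (upEdge π) := by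
  ext e
  induction e using Sym2.ind with
  | _ x y =>
    rw [SimpleGraph.mem_edgeSet]
    simp only [Digraph.toSimpleGraphInclusive, SimpleGraph.fromRel_adj]
    constructor
    · rintro ⟨hne, h | h⟩
      · rcases x with _ | x | x <;> rcases y with _ | y | y
        all_goals first | exact h.elim | skip
        · exact ⟨Sum.inl y, rfl⟩
        · have h' : π x = y := h
          exact ⟨Sum.inr x, by simp [upEdge, h']⟩
      · rcases x with _ | x | x <;> rcases y with _ | y | y
        all_goals first | exact h.elim | skip
        · exact ⟨Sum.inl x, by simp [upEdge]⟩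
        · have h' : π y = x := h
          exact ⟨Sum.inr y, by simp [upEdge, h']⟩
    · rintro ⟨(i | j), h⟩
      · simp only [upEdge, Sym2.eq_iff] at h
        rcases h with ⟨rfl, rfl⟩ | ⟨rfl, rfl⟩
        · exact ⟨by simp, Or.inl trivial⟩
        · exact ⟨by simp, Or.inr trivial⟩
      · simp only [upEdge, Sym2.eq_iff] at h
        rcases h with ⟨rfl, rfl⟩ | ⟨rfl, rfl⟩
        · exact ⟨by simp, Or.inl rfl⟩
        · exact ⟨by simp, Or.inr rfl⟩

theorem upEdge_injective : Function.Injective (upEdge π) := by
  rintro (i | j) (i' | j') h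
  · simp only [upEdge, Sym2.eq_iff] at h
    rcases h with ⟨_, h⟩ | ⟨h, _⟩
    · simpa using h
    · simp at h
  · simp [upEdge] at h
  · simp [upEdge] at h
  · simp only [upEdge, Sym2.eq_iff] at h
    rcases h with ⟨h, _⟩ | ⟨h, _⟩
    · simpa using h
    · simp at h

theorem starTree_isOrientedTree : IsOrientedTree (r + L) (starTree π) := by
  refine ⟨starTree_oriented, ?_, by simp [Nat.card_eq_fintype_card]⟩
  rw [SimpleGraph.isTree_iff_connected_and_card]
  have hadj : ∀ x y, (starTree π).Adj x y → x ≠ y →
      (starTree π).toSimpleGraphInclusive.Adj x y := fun x y h hne => by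
    simp only [Digraph.toSimpleGraphInclusive, SimpleGraph.fromRel_adj]
    exact ⟨hne, Or.inl h⟩
  constructor
  · have hreach : ∀ x, (starTree π).toSimpleGraphInclusive.Reachable none x := by
      have h1 : ∀ i : Fin r, (starTree π).toSimpleGraphInclusive.Reachable none
          (some (Sum.inl i)) := fun i =>
        (hadj _ _ (starTree_root i) (by simp)).reachable
      rintro (_ | i | j)
      · exact SimpleGraph.Reachable.refl _
      · exact h1 i
      · exact (h1 (π j)).trans (hadj _ _ (starTree_leaf j) (by simp)).reachable.symm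
    have : Nonempty (Option (Fin r ⊕ Fin L)) := ⟨none⟩
    exact ⟨fun x y => (hreach x).symm.trans (hreach y)⟩
  · rw [starTree_edgeSet, Nat.card_range_of_injective upEdge_injective]
    simp [Nat.card_eq_fintype_card]

/-! ### Degree bounds from injections -/

theorem le_outDeg [Finite V] {D : Digraph V} {x : V} {n : ℕ} (g : Fin n → V)
    (hg : Function.Injective g) (h : ∀ a, D.Adj x (g a)) : n ≤ outDeg D x := by
  have h1 : (Set.range g).ncard = n := by
    rw [← Nat.card_coe_set_eq, Nat.card_range_of_injective hg]; simp
  rw [← h1]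
  apply Set.ncard_le_ncard _ (Set.toFinite _)
  rintro _ ⟨a, rfl⟩
  exact h a

theorem le_inDeg [Finite V] {D : Digraph V} {x : V} {n : ℕ} (g : Fin n → V)
    (hg : Function.Injective g) (h : ∀ a, D.Adj (g a) x) : n ≤ inDeg D x := by
  have h1 : (Set.range g).ncard = n := by
    rw [← Nat.card_coe_set_eq, Nat.card_range_of_injective hg]; simp
  rw [← h1]
  apply Set.ncard_le_ncard _ (Set.toFinite _)
  rintro _ ⟨a, rfl⟩
  exact h a

/-! ### The leaf distribution -/

/-- Leaves are distributed in blocks of size `q`. -/
def blocks (r L q : ℕ) (h : L ≤ r * q) : Fin L → Fin r := fun j =>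
  ⟨j.1 / q, by
    have hj := j.2
    have : j.1 < r * q := lt_of_lt_of_le hj h
    exact Nat.div_lt_of_lt_mul (by rw [mul_comm]; exact this)⟩

theorem blocks_fiber {r L q : ℕ} (h : L ≤ r * q) (hq : 0 < q) (i : Fin r) :
    (Finset.univ.filter fun j : Fin L => blocks r L q h j = i).card ≤ q := by
  have : (Finset.univ.filter fun j : Fin L => blocks r L q h j = i).card ≤
      (Finset.range q).card := by
    apply Finset.card_le_card_of_injOn (fun j => j.1 % q)
    · intro j _
      simp only [Finset.coe_range, Set.mem_Iio]
      exact Nat.mod_lt _ hq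
    · intro j hj j' hj' hmod
      simp only [Finset.coe_filter, Finset.mem_univ, true_and, Set.mem_ofPred_eq] at hj hj'
      have h1 : j.1 / q = j'.1 / q := by
        have := congrArg Fin.val (hj.trans hj'.symm)
        exact this
      apply Fin.ext
      rw [← Nat.div_add_mod j.1 q, ← Nat.div_add_mod j'.1 q, h1]
      exact congrArg _ hmod
  simpa using this

theorem blocks_other {r L q : ℕ} (h : L ≤ r * q) (hq : 0 < q) (i : Fin r) :
    L ≤ (Finset.univ.filter fun j : Fin L => blocks r L q h j ≠ i).card + q := by
  have h1 := Finset.card_filter_add_card_filter_not (s := (Finset.univ : Finset (Fin L)))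
    (fun j : Fin L => blocks r L q h j = i)
  rw [Finset.card_univ, Fintype.card_fin] at h1
  have h2 := blocks_fiber h hq i
  simp only [ne_eq]
  omega

end Pool.Agent.Lib.MP_47458b_co
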